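import Pool.Agent.Q267.W63.Prod
import Pool.Agent.Q267.CDE.UU
import Pool.Agent.Q267.Seven.Inert
import Pool.Agent.Q261.SC.Tri

set_option autoImplicit false

/-!
# The sums with weight `1/63` at the inert primes
-/

namespace Pool.Agent.Q267.W63

open Finset Polynomial Pool.Agent.Q267 Pool.Agent.Q267.Seven Pool.Agent.Q267.CDE

section

variable (p m : ℕ) [hp : Fact p.Prime] (hpm : p = 2 * m + 1)

include hpm

theorem cb_zero (j : ℕ) (h1 : m < j) (h2 : j < p) : ((j.centralBinom : ℕ) : ZMod p) = 0 := by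
  rw [ZMod.natCast_eq_zero_iff, Nat.centralBinom, two_mul]
  exact hp.out.dvd_choose_add h2 h2 (by omega)

/-- truncation of a sum -/
theorem trunc_p (f : ℕ → ZMod p) (hf : ∀ k, m < 2 * k → k < p → f k = 0) :
    ∑ k ∈ range p, f k = ∑ k ∈ range (m + 1), f k := by
  rw [← sum_range_add_sum_Ico _ (show m + 1 ≤ p by omega)]
  have : ∑ k ∈ Ico (m + 1) p, f k = 0 := by
    refine sum_eq_zero fun k hk => ?_
    rw [mem_Ico] at hk
    exact hf k (by omega) hk.2
  rw [this, add_zero]

variable {K : Type*} [Field K] [CharP K p]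

omit hp in
/-- the Legendre polynomial vanishes at the supersingular point -/
theorem Fl_zero [hp : Fact p.Prime] (h2 : (2 : K) ≠ 0) (h7 : p ≠ 7) (w : K)
    (hw : w ^ 2 - w + 2 = 0) (hne : w ^ p ≠ w) : Fl m (w ^ 4) = 0 := by
  rw [← F_zero p m hpm h2 h7 w hw hne]
  unfold Fl
  refine sum_congr rfl fun k hk => ?_
  rw [dl_mod (K := K) p m hpm k (by have := mem_range.1 hk; omega)]

/-- `C(4k,2k)` modulo `p` -/
theorem cb_two (j : ZMod p) (hj : 4 * j = 1) (k : ℕ) (hk : 2 * k ≤ m) :
    ((m.choose (2 * k) : ℕ) : ZMod p) * 16 ^ k = (((4 * k).choose (2 * k) : ℕ) : ZMod p) := by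
  have h := cb_sign p hpm j hj (2 * k) hk
  have e1 : (-1 : ZMod p) ^ (2 * k) = 1 := by rw [pow_mul]; norm_num
  rw [e1, one_mul, Nat.centralBinom, show 2 * (2 * k) = 4 * k by ring] at h
  rw [← h, pow_mul, mul_assoc, ← mul_pow]
  have e2 : j ^ 2 * 16 = 1 := by linear_combination (4 * j + 1) * hj
  rw [e2, one_pow, mul_one]

/-- `C(4k,2k)` modulo `p`, all indices -/
theorem cb_two' (j : ZMod p) (hj : 4 * j = 1) (k : ℕ) (hk : k ≤ m) :
    ((m.choose (2 * k) : ℕ) : ZMod p) * 16 ^ k = (((4 * k).choose (2 * k) : ℕ) : ZMod p) := by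
  rcases le_or_gt (2 * k) m with h | h
  · exact cb_two p m hpm j hj k h
  · rw [Nat.choose_eq_zero_of_lt h]
    have := cb_zero p m hpm (2 * k) h (by omega)
    rw [Nat.centralBinom, show 2 * (2 * k) = 4 * k by ring] at this
    rw [this]
    simp

/-- vanishing of the first sum -/
theorem S_zero (h2 : (2 : K) ≠ 0) (h7 : p ≠ 7) (w : K)
    (hw : w ^ 2 - w + 2 = 0) (hne : w ^ p ≠ w) (j N : ZMod p) (hj : 4 * j = 1) (hN : 63 * N = 1) :
    ∑ k ∈ range p, ((((4 * k).choose (2 * k) * (2 * k).choose k : ℕ)) : ZMod p) * N ^ k = 0 := by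
  set φ := ZMod.castHom (dvd_refl p) K with hφ
  rw [trunc_p p m hpm]
  · apply φ.injective
    rw [map_zero, map_sum]
    have hF := Fl_zero p m hpm h2 h7 w hw hne
    set L := w ^ 4 with hL
    have h16 : L * (1 - L) = 16 := by
      have h4 : w ^ 4 = 2 - 3 * w := by linear_combination (w ^ 2 + w - 1) * hw
      rw [hL, h4]
      linear_combination (-9 : K) * hw
    have hq2 : (1 - 2 * L) ^ 2 = -63 := by linear_combination (-4 : K) * h16
    have hNK : (63 : K) * φ N = 1 := by
      have := congrArg φ hN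
      rw [map_mul, map_one, map_ofNat] at this
      exact this
    have hq0 : (1 - 2 * L) ≠ 0 := by
      intro h0
      rw [h0] at hq2
      have : (1 : K) = 0 := by linear_combination (-1 : K) * hNK + φ N * hq2
      exact one_ne_zero this
    have hT := Pool.Agent.Q261.SC.transf m (-L)
    have e1 : ∑ k ∈ range (m + 1), ((m.choose k * (m + k).choose k : ℕ) : K) * (-L) ^ k = Fl m L := by
      unfold Fl
      refine sum_congr rfl fun k _ => ?_
      unfold dl
      push_cast
      rw [neg_pow L k]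
      ring
    rw [e1, hF] at hT
    apply mul_left_cancel₀ (pow_ne_zero m hq0)
    rw [mul_zero, hT, mul_sum]
    refine sum_congr rfl fun k hk => ?_
    have hk' : k ≤ m := by simpa [Nat.lt_succ_iff] using hk
    have e3 := congrArg φ (cb_two' p m hpm j hj k hk')
    rw [map_mul, map_pow, map_natCast, map_natCast, map_ofNat] at e3
    rw [map_mul, map_pow, map_natCast, Nat.cast_mul, ← e3, Nat.cast_mul]
    rcases le_or_gt (2 * k) m with h | h
    · have e4 : (1 - 2 * L) ^ m = ((1 - 2 * L) ^ 2) ^ k * (1 - 2 * L) ^ (m - 2 * k) := by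
        rw [← pow_mul, ← pow_add]; congr 1; omega
      have e5 : ((-63 : K)) ^ k * (16 ^ k * φ N ^ k) = (-16) ^ k := by
        rw [← mul_pow, ← mul_pow]
        congr 1
        linear_combination (-16 : K) * hNK
      rw [e4, hq2, show -L * (-L + 1) = -16 by linear_combination (-1 : K) * h16, ← e5,
        show 2 * -L + 1 = 1 - 2 * L by ring]
      ring
    · rw [Nat.choose_eq_zero_of_lt h]
      simp
  · intro k h1 h2'
    rw [Nat.cast_mul]
    rcases le_or_gt k m with h | h
    · have := cb_zero p m hpm (2 * k) h1 (by omega)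
      rw [Nat.centralBinom, show 2 * (2 * k) = 4 * k by ring] at this
      rw [this]; ring
    · have := cb_zero p m hpm k h h2'
      rw [Nat.centralBinom] at this
      rw [this]; ring

/-- vanishing of the second sum -/
theorem U_zero (h2 : (2 : K) ≠ 0) (h7 : p ≠ 7) (w : K)
    (hw : w ^ 2 - w + 2 = 0) (hne : w ^ p ≠ w) (j N : ZMod p) (hj : 4 * j = 1) (hN : 63 * N = 1) :
    ∑ k ∈ range p, ((((2 * k).choose k * (4 * k).choose (2 * k) ^ 2 : ℕ)) : ZMod p) * N ^ k = 0 := by
  set φ := ZMod.castHom (dvd_refl p) K with hφ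
  rw [trunc_p p m hpm]
  · apply φ.injective
    rw [map_zero, map_sum]
    have hF := Fl_zero p m hpm h2 h7 w hw hne
    set L := w ^ 4 with hL
    have h16 : L * (1 - L) = 16 := by
      have h4 : w ^ 4 = 2 - 3 * w := by linear_combination (w ^ 2 + w - 1) * hw
      rw [hL, h4]
      linear_combination (-9 : K) * hw
    have hq2 : (1 - 2 * L) ^ 2 = -63 := by linear_combination (-4 : K) * h16
    have hNK : (63 : K) * φ N = 1 := by
      have := congrArg φ hN
      rw [map_mul, map_one, map_ofNat] at this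
      exact this
    have hq0 : (1 - 2 * L) ≠ 0 := by
      intro h0
      rw [h0] at hq2
      have : (1 : K) = 0 := by linear_combination (-1 : K) * hNK + φ N * hq2
      exact one_ne_zero this
    obtain ⟨y, hy⟩ : ∃ y, (1 - 2 * L) * y = -L := ⟨-L / (1 - 2 * L), by field_simp⟩
    have hxy : L + y = 2 * L * y := by linear_combination hy
    have hyy : y * (1 - y) = 16 * φ N := by
      apply mul_left_cancel₀ (pow_ne_zero 2 hq0)
      linear_combination (1 - 2 * L - (1 - 2 * L) * y + L) * hy - h16 - (16 * φ N) * hq2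
        - (16 : K) * hNK * (-1)
    have hP := Fl_prod m L y hxy
    rw [hF, zero_mul] at hP
    rw [hP]
    refine sum_congr rfl fun k hk => ?_
    have hk' : k ≤ m := by simpa [Nat.lt_succ_iff] using hk
    have e3 := congrArg φ (cb_two' p m hpm j hj k hk')
    rw [map_mul, map_pow, map_natCast, map_natCast, map_ofNat] at e3
    rw [map_mul, map_pow, map_natCast, Nat.cast_mul, Nat.cast_pow, ← e3, h16, hyy]
    rcases le_or_gt (2 * k) m with h | h
    · rw [dl_mod (K := K) p m hpm (2 * k) h]
      unfold Landen.cc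
      have e6 : (16 * (16 * φ N)) ^ k = (16 ^ k) ^ 2 * φ N ^ k := by
        rw [mul_pow, mul_pow]; ring
      rw [Nat.centralBinom, e6]
      ring
    · rw [dl_zero_of m (2 * k) h, Nat.choose_eq_zero_of_lt h]
      simp
  · intro k h1 h2'
    rw [Nat.cast_mul, Nat.cast_pow]
    rcases le_or_gt k m with h | h
    · have := cb_zero p m hpm (2 * k) h1 (by omega)
      rw [Nat.centralBinom, show 2 * (2 * k) = 4 * k by ring] at this
      rw [this]; ring
    · have := cb_zero p m hpm k h h2'
      rw [Nat.centralBinom] at this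
      rw [this]; ring

end

end Pool.Agent.Q267.W63
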