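import Mathlib

set_option autoImplicit false

/-!
# The Jacobi symbols attached to `p = x² + 7y²`
-/

namespace Pool.Agent.Q267.W63

open NumberTheorySymbols jacobiSym

/-- reciprocity for odd integers of either sign -/
theorem jac_odd (z : ℤ) (b : ℕ) (hz : z % 2 = 1) (hb : b % 2 = 1) :
    J(z | b) = (if z % 4 = 3 ∧ b % 4 = 3 then -1 else 1) * J(b | z.natAbs) := by
  rcases Int.natAbs_eq z with h | h
  · obtain ⟨n, hn⟩ : ∃ n : ℕ, n = z.natAbs := ⟨_, rfl⟩
    rw [← hn] at h ⊢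
    have hn2 : n % 2 = 1 := by omega
    have hq := quadratic_reciprocity_if hn2 hb
    rw [h, ← hq]
    have h34 : ((n : ℤ) % 4 = 3 ∧ b % 4 = 3) ↔ (n % 4 = 3 ∧ b % 4 = 3) := by omega
    simp only [h34]
    split_ifs <;> ring
  · obtain ⟨n, hn⟩ : ∃ n : ℕ, n = z.natAbs := ⟨_, rfl⟩
    rw [← hn] at h ⊢
    have hn2 : n % 2 = 1 := by omega
    have hq := quadratic_reciprocity_if hn2 hb
    have hbo : Odd b := Nat.odd_iff.mpr hb
    rw [h, jacobiSym.neg _ hbo, ← hq, ZMod.χ₄_nat_eq_if_mod_four]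
    rw [if_neg (show ¬ b % 2 = 0 by omega)]
    rcases (show b % 4 = 1 ∨ b % 4 = 3 by omega) with h4 | h4
    · rw [if_pos h4, if_neg (show ¬ (n % 4 = 3 ∧ b % 4 = 3) by omega),
        if_neg (show ¬ (-(n : ℤ) % 4 = 3 ∧ b % 4 = 3) by omega)]
    · rw [if_neg (show ¬ b % 4 = 1 by omega)]
      rcases (show n % 4 = 1 ∨ n % 4 = 3 by omega) with h5 | h5
      · rw [if_neg (show ¬ (n % 4 = 3 ∧ b % 4 = 3) by omega),
          if_pos (show (-(n : ℤ) % 4 = 3 ∧ b % 4 = 3) by omega)]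
      · rw [if_pos (show (n % 4 = 3 ∧ b % 4 = 3) by omega),
          if_neg (show ¬ (-(n : ℤ) % 4 = 3 ∧ b % 4 = 3) by omega)]
        ring

theorem two_dec (z : ℤ) (hz : z ≠ 0) : ∃ (k : ℕ) (z' : ℤ), z' % 2 = 1 ∧ z = 2 ^ k * z' := by
  obtain ⟨k, m, hm, h⟩ := Nat.exists_eq_two_pow_mul_odd (Int.natAbs_ne_zero.mpr hz)
  have hm' := Nat.odd_iff.mp hm
  rcases Int.natAbs_eq z with h' | h'
  · refine ⟨k, m, by omega, ?_⟩
    rw [h', h]
    push_cast
    ring
  · refine ⟨k, -(m : ℤ), by omega, ?_⟩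
    rw [h', h]
    push_cast
    ring

variable (p : ℕ) [hp : Fact p.Prime] (x y : ℤ) (hxy : (p : ℤ) = x ^ 2 + 7 * y ^ 2)

include hxy

theorem cop_xy : IsCoprime x y := by
  rw [Int.isCoprime_iff_gcd_eq_one]
  by_contra hne
  obtain ⟨q, hq, hd⟩ := Nat.exists_prime_and_dvd hne
  have h1 : (q : ℤ) ∣ x := (Int.natCast_dvd_natCast.mpr hd).trans (Int.gcd_dvd_left ..)
  have h2 : (q : ℤ) ∣ y := (Int.natCast_dvd_natCast.mpr hd).trans (Int.gcd_dvd_right ..)
  have h3 : (q : ℤ) ^ 2 ∣ p := by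
    rw [hxy]
    exact dvd_add (pow_dvd_pow_of_dvd h1 2) (Dvd.dvd.mul_left (pow_dvd_pow_of_dvd h2 2) 7)
  have h4 : q ^ 2 ∣ p := by exact_mod_cast h3
  have h5 : q * q ∣ p := by rwa [← sq]
  exact (hp.out.squarefree q h5 |> Nat.isUnit_iff.mp |> hq.one_lt.ne')

/-- `(p/n)` for an odd divisor of `x` -/
theorem jac_x (z : ℤ) (hz : z % 2 = 1) (hd : z ∣ x) : J(p | z.natAbs) =
    (if z % 4 = 3 then -1 else 1) * J(z | 7) := by
  have h7 := jac_odd z 7 hz (by norm_num)
  have e1 : (if z % 4 = 3 ∧ 7 % 4 = 3 then (-1 : ℤ) else 1) = if z % 4 = 3 then -1 else 1 := by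
    simp
  rw [e1] at h7
  have hcop : y.gcd z.natAbs = 1 := by
    have h1 : IsCoprime z y := (cop_xy p x y hxy).of_isCoprime_of_dvd_left hd
    have h2 := Int.isCoprime_iff_gcd_eq_one.mp h1.symm
    rw [Int.gcd, Int.natAbs_natCast]
    exact h2
  have h2 : J(p | z.natAbs) = J(7 | z.natAbs) := by
    have e2 : J((p : ℤ) | z.natAbs) = J(7 * y ^ 2 | z.natAbs) := by
      apply mod_left'
      apply Int.ModEq.symm
      rw [Int.modEq_iff_dvd]
      have : (p : ℤ) - 7 * y ^ 2 = x * x := by rw [hxy]; ring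
      rw [this]
      exact (Int.natAbs_dvd.mpr hd).mul_right _
    rw [e2, jacobiSym.mul_left, sq_one' hcop, mul_one]
  rw [h2, h7]
  push_cast
  split_ifs <;> ring

/-- `(p/n)` for an odd divisor of `y` -/
theorem jac_y (z : ℤ) (hd : z ∣ y) : J(p | z.natAbs) = 1 := by
  have hcop : x.gcd z.natAbs = 1 := by
    have h1 : IsCoprime z x := (cop_xy p x y hxy).symm.of_isCoprime_of_dvd_left hd
    have h2 := Int.isCoprime_iff_gcd_eq_one.mp h1.symm
    rw [Int.gcd, Int.natAbs_natCast]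
    exact h2
  have e2 : J((p : ℤ) | z.natAbs) = J(x ^ 2 | z.natAbs) := by
    apply mod_left'
    apply Int.ModEq.symm
    rw [Int.modEq_iff_dvd]
    have : (p : ℤ) - x ^ 2 = y * (7 * y) := by rw [hxy]; ring
    rw [this]
    exact (Int.natAbs_dvd.mpr hd).mul_right _
  rw [e2, sq_one' hcop]

omit hxy in
theorem sq8 (z : ℤ) : (z % 4 = 0 → z ^ 2 % 8 = 0) ∧ (z % 4 = 2 → z ^ 2 % 8 = 4) ∧
    (z % 2 = 1 → z ^ 2 % 8 = 1) := by
  refine ⟨fun h => ?_, fun h => ?_, fun h => ?_⟩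
  · obtain ⟨c, hc⟩ : ∃ c, z = 4 * c := ⟨z / 4, by omega⟩
    rw [hc, show (4 * c) ^ 2 = 8 * (2 * c ^ 2) by ring]
    omega
  · obtain ⟨c, hc⟩ : ∃ c, z = 4 * c + 2 := ⟨z / 4, by omega⟩
    rw [hc, show (4 * c + 2) ^ 2 = 8 * (2 * c ^ 2 + 2 * c) + 4 by ring]
    omega
  · obtain ⟨c, hc⟩ : ∃ c, z = 2 * c + 1 := ⟨z / 2, by omega⟩
    rcases Int.even_or_odd' c with ⟨d, hd | hd⟩
    · rw [hc, hd, show (2 * (2 * d) + 1) ^ 2 = 8 * (2 * d ^ 2 + d) + 1 by ring]
      omega
    · rw [hc, hd, show (2 * (2 * d + 1) + 1) ^ 2 = 8 * (2 * d ^ 2 + 3 * d + 1) + 1 by ring]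
      omega

omit hxy in
theorem pow_dec (z : ℤ) (k : ℕ) (z' : ℤ) (h1 : z' % 2 = 1) (h : z = 2 ^ k * z') :
    (z % 4 = 2 → k = 1) ∧ (z % 2 = 1 → k = 0) := by
  refine ⟨fun h2 => ?_, fun h2 => ?_⟩
  · rcases k with _ | _ | k
    · exfalso; rw [pow_zero, one_mul] at h; omega
    · rfl
    · exfalso
      rw [h, show (2 : ℤ) ^ (k + 1 + 1) * z' = 4 * (2 ^ k * z') by ring] at h2
      omega
  · rcases k with _ | k
    · rfl
    · exfalso
      rw [h, show (2 : ℤ) ^ (k + 1) * z' = 2 * (2 ^ k * z') by ring] at h2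
      omega

/-- the symbols, `p ≡ 1 (mod 4)` -/
theorem jac1 (h4 : p % 4 = 1) (hy0 : y ≠ 0) : x % 2 = 1 ∧ y % 2 = 0 ∧
    J(x | p) = (if x % 4 = 3 then -1 else 1) * J(x | 7) ∧
    J(y | p) = if y % 4 = 0 then 1 else -1 := by
  obtain ⟨x0, x2, x1⟩ := sq8 x
  obtain ⟨y0, y2, y1⟩ := sq8 y
  have hx : x % 2 = 1 := by
    rcases Int.emod_two_eq_zero_or_one x with h | h
    · exfalso
      rcases Int.emod_two_eq_zero_or_one y with h' | h'
      · rcases (show x % 4 = 0 ∨ x % 4 = 2 by omega) with a | a <;>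
        rcases (show y % 4 = 0 ∨ y % 4 = 2 by omega) with b | b
        · have := x0 a; have := y0 b; omega
        · have := x0 a; have := y2 b; omega
        · have := x2 a; have := y0 b; omega
        · have := x2 a; have := y2 b; omega
      · have := y1 h'
        rcases (show x % 4 = 0 ∨ x % 4 = 2 by omega) with a | a
        · have := x0 a; omega
        · have := x2 a; omega
    · exact h
  have hx8 := x1 hx
  have hy : y % 2 = 0 := by
    rcases Int.emod_two_eq_zero_or_one y with h' | h'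
    · exact h'
    · have := y1 h'; omega
  refine ⟨hx, hy, ?_, ?_⟩
  · have h1 := jac_odd x p hx (by omega)
    rw [if_neg (show ¬ (x % 4 = 3 ∧ p % 4 = 3) by omega), one_mul] at h1
    rw [h1]
    exact jac_x p x y hxy x hx dvd_rfl
  · obtain ⟨k, z, hz, hk⟩ := two_dec y hy0
    obtain ⟨k1, -⟩ := pow_dec y k z hz hk
    have h1 := jac_odd z p hz (by omega)
    rw [if_neg (show ¬ (z % 4 = 3 ∧ p % 4 = 3) by omega), one_mul,
      jac_y p x y hxy z ⟨2 ^ k, by rw [hk]; ring⟩] at h1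
    have hpo : Odd p := Nat.odd_iff.mpr (by omega)
    have h2 : J(y | p) = J(2 | p) ^ k := by
      rw [hk, jacobiSym.mul_left, h1, mul_one, pow_left]
    rw [h2, at_two hpo, ZMod.χ₈_nat_eq_if_mod_eight, if_neg (show ¬ p % 2 = 0 by omega)]
    split_ifs with h5 h6 h6
    · rw [one_pow]
    · have h8 := y2 (by omega)
      omega
    · have h8 := y0 h6
      omega
    · rw [k1 (by omega), pow_one]

/-- the symbols, `p ≡ 3 (mod 4)` -/
theorem jac3 (h4 : p % 4 = 3) (hx0 : x ≠ 0) : x % 2 = 0 ∧ y % 2 = 1 ∧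
    J(x | p) = (if x % 4 = 0 then 1 else -1) * J(x | 7) ∧
    J(y | p) = if y % 4 = 3 then -1 else 1 := by
  obtain ⟨x0, x2, x1⟩ := sq8 x
  obtain ⟨y0, y2, y1⟩ := sq8 y
  have hy : y % 2 = 1 := by
    rcases Int.emod_two_eq_zero_or_one y with h | h
    · exfalso
      rcases Int.emod_two_eq_zero_or_one x with h' | h'
      · rcases (show x % 4 = 0 ∨ x % 4 = 2 by omega) with a | a <;>
        rcases (show y % 4 = 0 ∨ y % 4 = 2 by omega) with b | b
        · have := x0 a; have := y0 b; omega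
        · have := x0 a; have := y2 b; omega
        · have := x2 a; have := y0 b; omega
        · have := x2 a; have := y2 b; omega
      · have := x1 h'
        rcases (show y % 4 = 0 ∨ y % 4 = 2 by omega) with a | a
        · have := y0 a; omega
        · have := y2 a; omega
    · exact h
  have hy8 := y1 hy
  have hx : x % 2 = 0 := by
    rcases Int.emod_two_eq_zero_or_one x with h' | h'
    · exact h'
    · have := x1 h'; omega
  have hpo : Odd p := Nat.odd_iff.mpr (by omega)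
  refine ⟨hx, hy, ?_, ?_⟩
  · obtain ⟨k, z, hz, hk⟩ := two_dec x hx0
    obtain ⟨k1, -⟩ := pow_dec x k z hz hk
    have h1 := jac_odd z p hz (by omega)
    rw [jac_x p x y hxy z hz ⟨2 ^ k, by rw [hk]; ring⟩] at h1
    have h1' : J(z | p) = J(z | 7) := by
      rw [h1]
      by_cases h : z % 4 = 3
      · rw [if_pos ⟨h, h4⟩, if_pos h]; ring
      · rw [if_neg (fun h' => h h'.1), if_neg h]; ring
    have h27 : J(2 | 7) = 1 := by
      rw [at_two (by decide)]
      decide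
    have h2 : J(x | p) = J(2 | p) ^ k * J(z | 7) := by
      rw [hk, jacobiSym.mul_left, h1', pow_left]
    have h3 : J(x | 7) = J(z | 7) := by
      rw [hk, jacobiSym.mul_left, pow_left, h27, one_pow, one_mul]
    rw [h2, h3, at_two hpo, ZMod.χ₈_nat_eq_if_mod_eight, if_neg (show ¬ p % 2 = 0 by omega)]
    split_ifs with h5 h6 h6
    · rw [one_pow]
    · have h8 := x2 (by omega)
      omega
    · have h8 := x0 h6
      omega
    · rw [k1 (by omega), pow_one]
  · have h1 := jac_odd y p hy (by omega)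
    rw [jac_y p x y hxy y dvd_rfl, mul_one] at h1
    rw [h1]
    by_cases h : y % 4 = 3
    · rw [if_pos ⟨h, h4⟩, if_pos h]
    · rw [if_neg (fun h' => h h'.1), if_neg h]

end Pool.Agent.Q267.W63
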