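import Pool.Agent.Q267.CDE.InvW

set_option autoImplicit false

/-!
# A product of two Legendre polynomials

`P_m(t) P_m(1/t) = ∑ C(m,2k) C(m+2k,2k) C(2k,k) (-(t-1/t)²/16)^k`.
-/

namespace Pool.Agent.Q267.W63

open Finset Polynomial Pool.Agent.Q267.Seven Pool.Agent.Q267.CDE

theorem ch_right (n k : ℕ) : ((n.choose (k + 1) : ℕ) : ℤ) * ((k : ℤ) + 1) =
    (n.choose k : ℕ) * ((n : ℤ) - k) := by
  rcases le_or_gt k n with h | h
  · have := Nat.choose_succ_right_eq n k
    have h' := congrArg (Nat.cast : ℕ → ℤ) this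
    push_cast [h] at h'
    exact h'
  · rw [Nat.choose_eq_zero_of_lt h, Nat.choose_eq_zero_of_lt (show n < k + 1 by omega)]
    simp

theorem ch_up (n k : ℕ) : ((n : ℤ) + 1) * (n.choose k : ℕ) =
    ((n : ℤ) + 1 - k) * ((n + 1).choose k : ℕ) := by
  have h1 := Nat.add_one_mul_choose_eq n k
  have h2 := congrArg (Nat.cast : ℕ → ℤ) h1
  push_cast at h2
  have h3 := ch_right (n + 1) k
  push_cast at h3
  linear_combination h2 + h3

/-- the recurrence for the structure constants -/
theorem gam_rec (a b n : ℕ) :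
    ((a : ℤ) + 1) ^ 2 * ((a + 1 + b).choose (n + 1) * (n + 1).choose (a + 1) * (n + 1).choose b : ℕ) =
      ((n : ℤ) + 1 - a) * ((n : ℤ) + 1 + a + 1) *
        ((a + b).choose (n + 1) * (n + 1).choose a * (n + 1).choose b : ℕ) +
      ((n : ℤ) + 1) ^ 2 * ((a + b).choose n * n.choose a * n.choose b : ℕ) := by
  have h1 := ch_right (n + 1) a
  have h2 := ch_up n a
  have h3 := ch_up n b
  have h4 := ch_right (a + b) n
  have h5 : (((a + 1 + b).choose (n + 1) : ℕ) : ℤ) = (a + b).choose n + (a + b).choose (n + 1) := by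
    rw [show a + 1 + b = a + b + 1 by ring, Nat.choose_succ_succ]
    push_cast
    rfl
  push_cast at h1 h2 h3 h4 h5 ⊢
  rw [h5]
  set A := (((n + 1).choose a : ℕ) : ℤ)
  set A1 := (((n + 1).choose (a + 1) : ℕ) : ℤ)
  set A0 := ((n.choose a : ℕ) : ℤ)
  set B := (((n + 1).choose b : ℕ) : ℤ)
  set B0 := ((n.choose b : ℕ) : ℤ)
  set N1 := (((a + b).choose (n + 1) : ℕ) : ℤ)
  set N0 := (((a + b).choose n : ℕ) : ℤ)
  linear_combination (((a : ℤ) + 1) * (N0 + N1) * B) * h1 - ((n : ℤ) + 1) * N0 * B0 * h2 -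
    (N0 * ((n : ℤ) + 1 - a) * A) * h3 - (((n : ℤ) + 1 - a) * A * B) * h4

/-- the structure constants -/
def gam (a b n : ℕ) : ℤ :=
  (-1) ^ (a + b + n) * ((a + b).choose n * n.choose a * n.choose b : ℕ)

theorem gam_succ (a b n : ℕ) : ((a : ℤ) + 1) ^ 2 * gam (a + 1) b (n + 1) =
    ((a : ℤ) * (a + 1) - ((n : ℤ) + 1) * (n + 2)) * gam a b (n + 1) +
      ((n : ℤ) + 1) ^ 2 * gam a b n := by
  have h := gam_rec a b n
  unfold gam
  rw [show a + 1 + b + (n + 1) = a + b + n + 2 by ring, show a + b + (n + 1) = a + b + n + 1 by ring,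
    pow_succ, pow_succ]
  linear_combination ((-1 : ℤ) ^ (a + b + n)) * h

theorem gam_zero (a b : ℕ) : ((a : ℤ) + 1) ^ 2 * gam (a + 1) b 0 =
    ((a : ℤ) * (a + 1)) * gam a b 0 := by
  unfold gam
  rcases a with _ | a
  · simp
  · simp

/-- **Linearization.** -/
theorem lin (m a b : ℕ) : dl m a * dl m b = ∑ n ∈ range (m + 1), gam a b n * dl m n := by
  have hdl : ∀ n, m < n → dl m n = 0 := by
    intro n hn
    unfold dl
    rw [Nat.choose_eq_zero_of_lt hn]
    simp
  induction a with
  | zero =>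
    have hg : ∀ n, gam 0 b n * dl m n = if n = b then dl m b else 0 := by
      intro n
      split_ifs with h
      · subst h
        unfold gam
        rw [zero_add, Nat.choose_self, Nat.choose_zero_right, ← two_mul, pow_mul]
        simp
      · unfold gam
        rw [zero_add]
        rcases lt_or_gt_of_ne h with h' | h'
        · rw [Nat.choose_eq_zero_of_lt h']; simp
        · rw [Nat.choose_eq_zero_of_lt h']; simp
    have h0 : dl m 0 = 1 := by simp [dl]
    rw [h0, one_mul, sum_congr rfl fun n _ => hg n]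
    by_cases hb : b ≤ m
    · rw [sum_ite_eq' (range (m + 1)) b, if_pos (mem_range.mpr (by omega))]
    · rw [hdl b (by omega)]
      symm
      apply sum_eq_zero
      intro n _
      split_ifs <;> rfl
  | succ a ih =>
    have hpos : ((a : ℤ) + 1) ^ 2 ≠ 0 := by positivity
    apply mul_left_cancel₀ hpos
    have h1 := dl_succ m a
    have e1 : ((a : ℤ) + 1) ^ 2 * (dl m (a + 1) * dl m b) =
        ((a : ℤ) ^ 2 + a - m * (m + 1)) * (dl m a * dl m b) := by
      linear_combination dl m b * h1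
    rw [e1, ih, mul_sum, mul_sum]
    -- the right hand side
    have e2 : ∑ n ∈ range (m + 1), ((a : ℤ) + 1) ^ 2 * (gam (a + 1) b n * dl m n) =
        ∑ n ∈ range (m + 1), ((a : ℤ) * (a + 1) - (n : ℤ) * (n + 1)) * (gam a b n * dl m n) +
        ∑ n ∈ range m, ((n : ℤ) + 1) ^ 2 * (gam a b n * dl m (n + 1)) := by
      rw [sum_range_succ' _ m, sum_range_succ' _ m]
      have e3 : ∀ n ∈ range m, ((a : ℤ) + 1) ^ 2 * (gam (a + 1) b (n + 1) * dl m (n + 1)) =
          ((a : ℤ) * (a + 1) - ((n + 1 : ℕ) : ℤ) * (((n + 1 : ℕ) : ℤ) + 1)) *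
            (gam a b (n + 1) * dl m (n + 1)) +
          ((n : ℤ) + 1) ^ 2 * (gam a b n * dl m (n + 1)) := by
        intro n _
        have := gam_succ a b n
        push_cast
        linear_combination dl m (n + 1) * this
      rw [sum_congr rfl e3, sum_add_distrib]
      have := gam_zero a b
      push_cast
      linear_combination dl m 0 * this
    have e4 : ∑ n ∈ range m, ((n : ℤ) + 1) ^ 2 * (gam a b n * dl m (n + 1)) =
        ∑ n ∈ range (m + 1), ((n : ℤ) ^ 2 + n - m * (m + 1)) * (gam a b n * dl m n) := by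
      rw [sum_range_succ]
      have e5 : ((m : ℤ) ^ 2 + m - m * (m + 1)) * (gam a b m * dl m m) = 0 := by ring
      rw [e5, add_zero]
      refine sum_congr rfl fun n _ => ?_
      have := dl_succ m n
      linear_combination gam a b n * this
    rw [e2, e4, ← sum_add_distrib]
    refine sum_congr rfl fun n _ => ?_
    ring

variable {K : Type*} [CommRing K]

/-- the product of two values -/
theorem Fl_mul (m : ℕ) (x y : K) : Fl m x * Fl m y = ∑ n ∈ range (m + 1), (dl m n : K) *
    ((-1) ^ n * ((C (1 - x) - C x * X) ^ n * (C (1 - y) - C y * X) ^ n).coeff n) := by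
  have hexp : ∀ (n : ℕ) (x : K), n ≤ m → (C (1 - x) - C x * X) ^ n =
      ∑ a ∈ range (m + 1), C ((n.choose a : K) * (-x) ^ a) * (1 + X) ^ a := by
    intro n x hn
    have e : (C (1 - x) - C x * X : K[X]) = C (-x) * (1 + X) + 1 := by
      rw [C_sub, C_neg, C_1]; ring
    rw [e, add_pow, ← sum_range_add_sum_Ico _ (show n + 1 ≤ m + 1 by omega)]
    have z : ∑ a ∈ Ico (n + 1) (m + 1), C ((n.choose a : K) * (-x) ^ a) * (1 + X : K[X]) ^ a = 0 := by
      refine sum_eq_zero fun a ha => ?_
      rw [mem_Ico] at ha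
      rw [Nat.choose_eq_zero_of_lt (show n < a by omega)]
      simp
    rw [z, add_zero]
    refine sum_congr rfl fun a _ => ?_
    rw [mul_pow, one_pow, mul_one, C_mul, C_pow, ← C_eq_natCast]
    ring
  have hco : ∀ n ∈ range (m + 1), ((C (1 - x) - C x * X) ^ n * (C (1 - y) - C y * X) ^ n).coeff n =
      ∑ a ∈ range (m + 1), ∑ b ∈ range (m + 1),
        ((n.choose a : K) * (-x) ^ a) * ((n.choose b : K) * (-y) ^ b) * ((a + b).choose n : K) := by
    intro n hn
    rw [mem_range] at hn
    rw [hexp n x (by omega), hexp n y (by omega), sum_mul_sum, finsetSum_coeff]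
    refine sum_congr rfl fun a _ => ?_
    rw [finsetSum_coeff]
    refine sum_congr rfl fun b _ => ?_
    have e : C ((n.choose a : K) * (-x) ^ a) * (1 + X : K[X]) ^ a *
        (C ((n.choose b : K) * (-y) ^ b) * (1 + X) ^ b) =
        C (((n.choose a : K) * (-x) ^ a) * ((n.choose b : K) * (-y) ^ b)) * (1 + X) ^ (a + b) := by
      rw [pow_add]
      simp only [C_mul]
      ring
    rw [e, coeff_C_mul, coeff_one_add_X_pow]
  rw [sum_congr rfl fun n hn => by rw [hco n hn]]
  unfold Fl
  rw [sum_mul_sum]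
  have hl : ∀ a ∈ range (m + 1), ∀ b ∈ range (m + 1),
      (dl m a : K) * x ^ a * ((dl m b : K) * y ^ b) =
      ∑ n ∈ range (m + 1), (dl m n : K) * ((-1) ^ n * (((n.choose a : K) * (-x) ^ a) *
        ((n.choose b : K) * (-y) ^ b) * ((a + b).choose n : K))) := by
    intro a _ b _
    have h := congrArg (Int.cast : ℤ → K) (lin m a b)
    push_cast at h
    have e : (dl m a : K) * x ^ a * ((dl m b : K) * y ^ b) =
        (dl m a : K) * (dl m b : K) * (x ^ a * y ^ b) := by ring
    rw [e, h, sum_mul]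
    refine sum_congr rfl fun n _ => ?_
    unfold gam
    push_cast
    rw [neg_pow x a, neg_pow y b, pow_add, pow_add]
    ring
  rw [sum_congr rfl fun a ha => sum_congr rfl fun b hb => hl a ha b hb]
  rw [sum_congr rfl fun a _ => sum_comm, sum_comm]
  refine sum_congr rfl fun n _ => ?_
  rw [mul_sum, mul_sum]
  refine sum_congr rfl fun a _ => ?_
  rw [mul_sum, mul_sum]

/-- coefficients of a power of a binomial in `X²` -/
theorem coeff_sq (n : ℕ) (A B : K) : ((C A + C B * X ^ 2) ^ n : K[X]).coeff n =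
    if n % 2 = 0 then ((n / 2).centralBinom : K) * (A * B) ^ (n / 2) else 0 := by
  rw [add_comm, add_pow, finsetSum_coeff]
  have e1 : ∀ j ∈ range (n + 1), ((C B * X ^ 2) ^ j * C A ^ (n - j) * (n.choose j : K[X])).coeff n =
      if n = 2 * j then (n.choose j : K) * (B ^ j * A ^ (n - j)) else 0 := by
    intro j _
    have e2 : (C B * X ^ 2) ^ j * C A ^ (n - j) * (n.choose j : K[X]) =
        C ((n.choose j : K) * (B ^ j * A ^ (n - j))) * X ^ (2 * j) := by
      rw [mul_pow, ← pow_mul, C_mul, C_mul, C_pow, C_pow, ← C_eq_natCast]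
      ring
    rw [e2, coeff_C_mul, coeff_X_pow]
    split_ifs with h
    · rw [mul_one]
    · rw [mul_zero]
  rw [sum_congr rfl e1]
  split_ifs with h
  · obtain ⟨k, hk⟩ : ∃ k, n = 2 * k := ⟨n / 2, by omega⟩
    rw [sum_eq_single k]
    · rw [if_pos hk, hk, show 2 * k / 2 = k by omega, show 2 * k - k = k by omega, mul_pow,
        Nat.centralBinom]
      ring
    · intro j _ hj
      rw [if_neg (by omega)]
    · intro hn
      exfalso
      apply hn
      rw [mem_range]
      omega
  · refine sum_eq_zero fun j _ => ?_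
    rw [if_neg (by omega)]

/-- a sum over the even integers -/
theorem sum_even (N : ℕ) (f : ℕ → K) (hf : ∀ n, n % 2 = 1 → f n = 0) :
    ∑ n ∈ range (2 * N), f n = ∑ k ∈ range N, f (2 * k) := by
  induction N with
  | zero => simp
  | succ N ih =>
    rw [show 2 * (N + 1) = 2 * N + 1 + 1 by ring, sum_range_succ, sum_range_succ, ih,
      sum_range_succ, hf (2 * N + 1) (by omega), add_zero]

/-- **A product of two Legendre polynomials.** -/
theorem Fl_prod (m : ℕ) (x y : K) (hxy : x + y = 2 * x * y) : Fl m x * Fl m y =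
    ∑ k ∈ range (m + 1), (dl m (2 * k) : K) *
      ((k.centralBinom : K) * (x * (1 - x) * (y * (1 - y))) ^ k) := by
  rw [Fl_mul]
  have hcoef : ∀ n : ℕ, (-1 : K) ^ n * (((C (1 - x) - C x * X) ^ n * (C (1 - y) - C y * X) ^ n).coeff n) =
      if n % 2 = 0 then ((n / 2).centralBinom : K) * (x * (1 - x) * (y * (1 - y))) ^ (n / 2) else 0 := by
    intro n
    have e : ((C (1 - x) - C x * X) ^ n * (C (1 - y) - C y * X) ^ n : K[X]) =
        (C ((1 - x) * (1 - y)) + C (x * y) * X ^ 2) ^ n := by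
      rw [← mul_pow]
      congr 1
      have h0 : (1 - x) * y + x * (1 - y) = 0 := by linear_combination hxy
      have h1 : C (1 - x) * C y + C x * C (1 - y) = (0 : K[X]) := by
        rw [← C_mul, ← C_mul, ← C_add, h0, C_0]
      rw [C_mul, C_mul]
      linear_combination (-X) * h1
    rw [e, coeff_sq]
    split_ifs with h
    · obtain ⟨k, hk⟩ : ∃ k, n = 2 * k := ⟨n / 2, by omega⟩
      rw [hk, pow_mul]
      norm_num
      rw [show (1 - x) * (1 - y) * (x * y) = x * (1 - x) * (y * (1 - y)) by ring]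
    · rw [mul_zero]
  simp only [hcoef]
  obtain ⟨f, hf⟩ : ∃ f : ℕ → K, ∀ n, f n = (dl m n : K) *
      (if n % 2 = 0 then ((n / 2).centralBinom : K) * (x * (1 - x) * (y * (1 - y))) ^ (n / 2)
        else 0) := ⟨_, fun _ => rfl⟩
  simp only [← hf]
  have h1 : ∑ n ∈ range (m + 1), f n = ∑ n ∈ range (2 * (m + 1)), f n := by
    rw [← sum_range_add_sum_Ico _ (show m + 1 ≤ 2 * (m + 1) by omega)]
    have z : ∑ n ∈ Ico (m + 1) (2 * (m + 1)), f n = 0 := by
      refine sum_eq_zero fun n hn => ?_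
      rw [mem_Ico] at hn
      rw [hf, dl_zero_of m n (by omega)]
      simp
    rw [z, add_zero]
  rw [h1, sum_even (m + 1) f]
  · refine sum_congr rfl fun k _ => ?_
    rw [hf, if_pos (by omega), show 2 * k / 2 = k by omega]
  · intro n hn
    rw [hf, if_neg (by omega), mul_zero]

end Pool.Agent.Q267.W63
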