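import Pool.Agent.Q267.W64.Key
import Pool.Agent.Q267.Seven.Sums

set_option autoImplicit false

/-!
# The values of the sums with weight `1/63` through a Legendre polynomial
-/

namespace Pool.Agent.Q267.W63

open Finset Polynomial Pool.Agent.Q267 Pool.Agent.Q267.Seven Pool.Agent.Q267.CDE Pool.Agent.Q261.SC
  Pool.Agent.Q267.MW Pool.Agent.Q267.W64 Pool.Agent.Q267.Landen

section

variable (p : ℕ) [hp : Fact p.Prime] {m : ℕ}

/-- the Wronskian relation -/
theorem wr_R (hpm : p = 2 * m + 1) (h3 : 3 < p) (L y v : R p) (hy : L * y = 1)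
    (hu : L ^ m = 1 + p * v) (hF : Fl m y = Fl m L) (hL1 : CDE.red p L ≠ 1) :
    (p : R p) * (Fl m L * (2 * v * E0 p m (-L) + Fl m L + 2 * U0 p m (-L))) = p := by
  have hpp := CDE.p_sq p
  have h2 := inv_D p hpm h3 (-L) (-y) (by linear_combination hy)
  rw [D0_eq, neg_neg, D0_eq, neg_neg, neg_neg, hF, hu] at h2
  have h4 : (p : R p) * (-(T0 p m (-L))) = p * (v * Fl m L) := by linear_combination -h2
  have h5 := red_cancel p _ _ h4
  have hD := red_D0 p hpm (-L)
  have hE := red_E0 p hpm (-L)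
  have hT := red_T0 p hpm h3 (-L)
  have hU := red_U0 p hpm h3 (-L)
  rw [D0_eq] at hD
  rw [map_neg, neg_neg] at hD hE hT hU
  have hv := VV_eval p m hpm (CDE.red p L) hL1
  unfold VV at hv
  rw [eval_add, eval_pow, eval_mul, eval_sub, eval_mul, eval_mul, eval_Ph, eval_Ph, eval_Ph,
    eval_Ph] at hv
  have e2 : (2 : (ZMod p)[X]).eval (CDE.red p L) = 2 := by simp
  rw [e2] at hv
  set l := CDE.red p L with hl
  have c0 : ∑ k ∈ range (m + 1), cc (ZMod p) m k * (k : ZMod p) ^ 0 * l ^ k =
      CDE.red p (Fl m L) := by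
    rw [hD, neg_neg]
    exact sum_congr rfl fun k _ => by rw [pow_zero, mul_one]
  have c1 : ∑ k ∈ range (m + 1), cc (ZMod p) m k * (k : ZMod p) ^ 1 * l ^ k =
      CDE.red p (E0 p m (-L)) := by
    rw [hE]
    exact sum_congr rfl fun k _ => by ring
  have d0 : ∑ k ∈ range (m + 1), dd (ZMod p) m k * (k : ZMod p) ^ 0 * l ^ k =
      CDE.red p (T0 p m (-L)) := by
    rw [hT]
    exact sum_congr rfl fun k _ => by rw [pow_zero, mul_one]
  have d1 : ∑ k ∈ range (m + 1), dd (ZMod p) m k * (k : ZMod p) ^ 1 * l ^ k =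
      CDE.red p (U0 p m (-L)) := by
    rw [hU]
    exact sum_congr rfl fun k _ => by ring
  rw [c0, c1, d0, d1] at hv
  rw [map_neg, map_mul] at h5
  have h6 : (p : R p) * (Fl m L * (2 * v * E0 p m (-L) + Fl m L + 2 * U0 p m (-L))) = p * 1 := by
    apply CDE.p_mul_eq
    rw [map_mul, map_add, map_add, map_mul, map_mul, map_mul, map_ofNat, map_one]
    linear_combination hv - 2 * CDE.red p (E0 p m (-L)) * h5
  rw [h6, mul_one]

end

section gen

variable {K : Type*} [CommRing K]

theorem der_pow (W : K[X]) (k : ℕ) :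
    W * derivative (W ^ k) = (k : K[X]) * W ^ k * derivative W := by
  rcases k with _ | k
  · simp
  · rw [derivative_pow, Nat.add_sub_cancel, C_eq_natCast, pow_succ]
    push_cast
    ring

/-- the derivative of Clausen's identity -/
theorem clausen_der (m : ℕ) (x : K) :
    2 * (1 - x) * (Fl m x * ∑ k ∈ range (m + 1), (k : K) * ((dl m k : K) * x ^ k)) =
      (1 - 2 * x) * ∑ k ∈ range (m + 1), (k : K) * ((dl m k : K) * (k.centralBinom : K) *
        (x * (1 - x)) ^ k) := by
  have hF : FlP K m = ∑ k ∈ range (m + 1), (dl m k : K[X]) * X ^ k := by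
    unfold FlP
    exact sum_congr rfl fun k _ => by rw [map_intCast]
  have h := legendre_sq_ring m (X : K[X])
  rw [← hF, pow_two] at h
  have hR : X * (1 - X) * ∑ k ∈ range (m + 1), derivative ((dl m k : K[X]) *
      (k.centralBinom : K[X]) * (X * (1 - X)) ^ k) =
      (1 - 2 * X) * ∑ k ∈ range (m + 1), (k : K[X]) * ((dl m k : K[X]) *
        (k.centralBinom : K[X]) * (X * (1 - X)) ^ k) := by
    rw [mul_sum, mul_sum]
    refine sum_congr rfl fun k _ => ?_
    have h2 := der_pow (X * (1 - X) : K[X]) k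
    have h3 : derivative (X * (1 - X) : K[X]) = 1 - 2 * X := by
      rw [derivative_mul, derivative_sub, derivative_X, derivative_one]; ring
    rw [h3] at h2
    rw [derivative_mul, derivative_mul, derivative_intCast, derivative_natCast]
    linear_combination ((dl m k : K[X]) * (k.centralBinom : K[X])) * h2
  have h4 : X * (1 - X) * (derivative (FlP K m) * FlP K m + FlP K m * derivative (FlP K m)) =
      (1 - 2 * X) * ∑ k ∈ range (m + 1), (k : K[X]) * ((dl m k : K[X]) *
        (k.centralBinom : K[X]) * (X * (1 - X)) ^ k) := by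
    rw [← hR]
    have h5 := congrArg (fun q : K[X] => X * (1 - X) * derivative q) h
    simp only [derivative_sum] at h5
    rw [derivative_mul] at h5
    exact h5
  have h6 := congrArg (eval x) h4
  have h7 := FlP_deriv (K := K) m x
  rw [← h7]
  simp only [eval_mul, eval_add, eval_sub, eval_X, eval_one, eval_finsetSum, eval_natCast,
    eval_intCast, eval_pow, eval_ofNat, FlP_eval] at h6
  rw [← h6]
  ring

end gen

section

variable (p : ℕ) [hp : Fact p.Prime] {m : ℕ}

/-- the weighted sum at the point of discriminant `-7` -/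
theorem E_val (hpm : p = 2 * m + 1) (h3 : 3 < p) (h7 : p ≠ 7) (L Fi : R p)
    (h16 : L * (1 - L) = 16) (hFi : Fl m L * Fi = 1) :
    (1 - L) * ((1 - 2 * L) * E0 p m (-L)) = 12 * (Fl m L - p * Fi) := by
  have hE : E0 p m (-L) = ∑ k ∈ range (m + 1), (k : R p) * ((dl m k : R p) * L ^ k) := by
    unfold E0
    rw [neg_neg]
  have hsq : ∀ k ∈ range (m + 1), (dl m k : R p) * (k.centralBinom : R p) * (L * (1 - L)) ^ k =
      (k.centralBinom : R p) ^ 3 := by
    intro k hk
    have hk' : k ≤ m := by simpa [Nat.lt_succ_iff] using hk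
    have h1 := dl_sq p m hp.out hpm k hk'
    have h2 : (((16 ^ k * dl m k - (k.centralBinom : ℤ) ^ 2 : ℤ)) : R p) = 0 := by
      rw [ZMod.intCast_zmod_eq_zero_iff_dvd]
      push_cast
      exact h1
    push_cast at h2
    rw [h16]
    linear_combination (k.centralBinom : R p) * h2
  have c1 := clausen_der m L
  rw [← hE, sum_congr rfl fun k hk => by rw [hsq k hk]] at c1
  have c0 := legendre_sq_ring m L
  rw [sum_congr rfl hsq] at c0
  have c0' : Fl m L ^ 2 = ∑ k ∈ range (m + 1), (k.centralBinom : R p) ^ 3 := c0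
  have hs := sum_21_mod p m hp.out hpm
  have hs' : ((((∑ k ∈ range (m + 1), (21 * (k : ℤ) + 8) * (k.centralBinom : ℤ) ^ 3) - 8 * p : ℤ)) :
      R p) = 0 := by
    rw [ZMod.intCast_zmod_eq_zero_iff_dvd]
    push_cast
    exact hs
  push_cast at hs'
  have hs2 : 21 * (∑ k ∈ range (m + 1), (k : R p) * (k.centralBinom : R p) ^ 3) +
      8 * ∑ k ∈ range (m + 1), (k.centralBinom : R p) ^ 3 = 8 * p := by
    rw [mul_sum, mul_sum, ← sum_add_distrib]
    rw [sub_eq_zero] at hs'
    rw [← hs']
    exact sum_congr rfl fun k _ => by ring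
  rw [← c0'] at hs2
  set S1 := ∑ k ∈ range (m + 1), (k : R p) * (k.centralBinom : R p) ^ 3
  have hu42 : IsUnit (42 : R p) := by
    apply CDE.isUnit_of_red
    rw [map_ofNat]
    intro h
    have h' : ((42 : ℕ) : ZMod p) = 0 := by exact_mod_cast h
    rw [ZMod.natCast_eq_zero_iff] at h'
    have : p ∣ 2 * 3 * 7 := h'
    rcases (hp.out.dvd_mul).mp this with h1 | h1
    · rcases (hp.out.dvd_mul).mp h1 with h2 | h2
      · have := Nat.le_of_dvd (by norm_num) h2; omega
      · have := Nat.le_of_dvd (by norm_num) h2; omega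
    · exact h7 ((Nat.prime_dvd_prime_iff_eq hp.out (by norm_num)).mp h1)
  have hq2 : (1 - 2 * L) ^ 2 = -63 := by linear_combination (-4 : R p) * h16
  apply hu42.mul_left_cancel
  linear_combination (21 * (1 - 2 * L) * Fi) * c1 + ((1 - 2 * L) ^ 2 * Fi) * hs2
    - (8 * Fi * (Fl m L ^ 2 - p)) * hq2
    + (504 * Fl m L - 42 * (1 - 2 * L) * (1 - L) * E0 p m (-L)) * hFi

/-- the two sums with weight `1/63` -/
theorem sums63 (hpm : p = 2 * m + 1) (h3 : 3 < p) (h7 : p ≠ 7) (L y v Fi N s w : R p)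
    (h16 : L * (1 - L) = 16) (hy : L * y = 1) (hu : L ^ m = 1 + p * v) (hF : Fl m y = Fl m L)
    (hFi : Fl m L * Fi = 1) (hN : 63 * N = 1) (hs : s ^ 2 = 1)
    (hq : (1 - 2 * L) ^ m = s + p * w) (hL1 : CDE.red p L ≠ 1) :
    ∑ k ∈ range p, ((((4 * k).choose (2 * k) * (2 * k).choose k : ℕ) : R p) * N ^ k) =
      s * Fl m L ∧
    ∑ k ∈ range p, (k : R p) *
      ((((4 * k).choose (2 * k) * (2 * k).choose k : ℕ) : R p) * N ^ k) =
      s * (-4 * Fl m L + 4 * (p * Fi)) := by
  have hpp := CDE.p_sq p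
  obtain ⟨J, hJ⟩ : ∃ J : R p, 16 * J = 1 := by
    have h2u : IsUnit (2 : R p) := CDE.Ext.unit2 (by omega)
    have h16u : IsUnit (16 : R p) := by
      have : (16 : R p) = 2 ^ 4 := by norm_num
      rw [this]
      exact h2u.pow 4
    exact h16u.exists_right_inv
  have hq2 : (1 - 2 * L) ^ 2 = -63 := by linear_combination (-4 : R p) * h16
  have huq : IsUnit (1 - 2 * L) := by
    have : IsUnit ((1 - 2 * L) ^ 2) := by
      rw [hq2]
      exact IsUnit.of_mul_eq_one (-N) (by linear_combination hN)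
    exact (isUnit_pow_iff (by norm_num)).mp this
  have hz : (16 * N) * (1 - 2 * L) ^ 2 = (-L) * (-L + 1) := by
    rw [hq2]
    linear_combination (-16 : R p) * hN + h16
  have hzJ : (16 * N) * J = N := by linear_combination N * hJ
  have hqq : (1 - 2 * L) = 2 * (-L) + 1 := by ring
  have m0 := main0 p hpm h3 (-L) (16 * N) (1 - 2 * L) J hqq hz hJ
  have m1 := main1 p hpm h3 (-L) (16 * N) (1 - 2 * L) J hqq hz hJ
  rw [hzJ] at m0 m1
  have hred : CDE.red p (L ^ m) = 1 := by
    rw [hu, map_add, map_mul, map_natCast, ZMod.natCast_self, map_one, zero_mul, add_zero]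
  have hh := Fl_high p hpm h3 L y hy hred hF
  have h1 := high_sum p hpm h3 (-L)
  have e : Fl (p + m) L = ∑ k ∈ range (m + p + 1),
      ((((m + p).choose k * (m + p + k).choose k : ℕ)) : R p) * (-L) ^ k := by
    unfold Fl
    rw [show p + m = m + p by omega]
    refine sum_congr rfl fun k _ => ?_
    rw [dl_nat, neg_neg]
  rw [← e, hh] at h1
  rw [← h1] at m0 m1
  have hD : D0 p m (-L) = Fl m L := by rw [D0_eq, neg_neg]
  rw [hD] at m0 m1
  -- the powers
  have hLp : L ^ p = L * (1 + 2 * (p * v)) := by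
    have : L ^ p = L * (L ^ m) ^ 2 := by
      rw [← pow_mul, ← pow_succ']
      exact congrArg (fun n => L ^ n) (by omega)
    rw [this, hu]
    linear_combination (L * v ^ 2) * hpp
  have hqp : (1 - 2 * L) ^ p = (1 - 2 * L) * (1 + 2 * (p * (s * w))) := by
    have : (1 - 2 * L) ^ p = (1 - 2 * L) * ((1 - 2 * L) ^ m) ^ 2 := by
      rw [← pow_mul, ← pow_succ']
      exact congrArg (fun n => (1 - 2 * L) ^ n) (by omega)
    rw [this, hq]
    linear_combination (1 - 2 * L) * hs + ((1 - 2 * L) * w ^ 2) * hpp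
  have hwr := wr_R p hpm h3 L y v hy hu hF hL1
  have hE := E_val p hpm h3 h7 L Fi h16 hFi
  rw [pow_add, hq, hqp] at m0 m1
  rw [(show Odd p from ⟨m, hpm⟩).neg_pow, hLp] at m1
  have h2m : 2 * (m : R p) = p - 1 := by
    have := congrArg (Nat.cast : ℕ → R p) hpm
    push_cast at this
    rw [this]; ring
  set S := ∑ k ∈ range p, ((((4 * k).choose (2 * k) * (2 * k).choose k : ℕ) : R p) * N ^ k)
  set K := ∑ k ∈ range p, (k : R p) *
      ((((4 * k).choose (2 * k) * (2 * k).choose k : ℕ) : R p) * N ^ k)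
  set q := 1 - 2 * L with hqd
  set F := Fl m L with hFd
  set E := E0 p m (-L) with hEd
  set U := U0 p m (-L) with hUd
  have hu2 : IsUnit (2 * q * (s + 3 * (p * w))) := by
    have h2u : IsUnit (2 : R p) := CDE.Ext.unit2 (by omega)
    refine (h2u.mul huq).mul (IsUnit.of_mul_eq_one (s - 3 * (p * w)) ?_)
    linear_combination hs - (9 * w ^ 2) * hpp
  constructor
  · apply hu2.mul_left_cancel
    linear_combination m0 - (4 * q * S * p * w + 2 * q * F) * hs - (4 * q * S * s * w ^ 2) * hpp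
  · have hpf : (p : R p) * (2 * v * E + F + 2 * U) = p * Fi := by
      linear_combination Fi * hwr - (p * (2 * v * E + F + 2 * U)) * hFi
    have e1 : E + 2 * -(L * (1 + 2 * (p * v))) * (E + p * F + 2 * p * U) = q * E - 2 * L * (p * Fi) := by
      linear_combination (-2 * L) * hpf - (4 * L * v * (F + 2 * U)) * hpp
    have m2 : 2 * ((s + p * w) * (q * (1 + 2 * (p * (s * w))))) * K =
        3 * (q * (1 + 2 * (p * (s * w)))) * (12 * (F - p * Fi) + 16 * (p - 1) * F) -
        (q * (12 * (F - p * Fi)) - 32 * q * (p * Fi) + 16 * (3 * p - 1) * q * F) := by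
      linear_combination m1 + (3 * (q * (1 + 2 * (p * (s * w))))) * hE +
        (3 * (q * (1 + 2 * (p * (s * w)))) * F) * (2 * (m : R p) * h16 + 16 * h2m) -
        ((1 - L) * q * e1 + q * hE - 2 * q * (p * Fi) * h16) -
        (2 * ((m : R p) + p) * q * F * h16 + 16 * q * F * h2m)
    apply hu2.mul_left_cancel
    linear_combination m2 - (4 * q * K * p * w) * hs - (4 * q * K * s * w ^ 2) * hpp +
      (8 * q * F - 8 * q * p * Fi) * hs + (q * (-96 * s * w * Fi + 96 * s * w * F)) * hpp

end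

end Pool.Agent.Q267.W63
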